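import Pool.Agent.helper21.OE.SpecD

/-!
# oe:CLR, existence of the class of a character, `ℓ` ramified

Helper file for MP_2e0e07_nt (project oe).
-/

set_option autoImplicit false

namespace Pool.Agent.OE

section

variable {d t : ℤ}

theorem CLR_norm (z : Oz d t) : z.norm = z.re ^ 2 + t * z.re * z.im + d * z.im ^ 2 := by
  rw [QuadraticAlgebra.norm_def]
  ring

theorem CLR_mul_star (z : Oz d t) : z * star z = ((z.norm : ℤ) : Oz d t) := by
  rw [← QuadraticAlgebra.algebraMap_norm_eq_mul_star]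
  rfl

/-- the norm in characteristic `ℓ` -/
theorem CLR_pi {κ : Type} [Field κ] (π : Oz d t →+* κ) (z : Oz d t) :
    π (z * star z) = ((z.norm : ℤ) : κ) := by
  rw [CLR_mul_star, map_intCast]

theorem CLR_two {ℓ : ℕ} (hℓ : ℓ.Prime) (h2 : ℓ ≠ 2) : (2 : ZMod ℓ) ≠ 0 := by
  intro h
  have h3 : ((2 : ℕ) : ZMod ℓ) = 0 := by
    rw [Nat.cast_ofNat]
    exact h
  have h4 := (ZMod.natCast_eq_zero_iff _ _).1 h3
  exact h2 ((Nat.prime_dvd_prime_iff_eq hℓ Nat.prime_two).1 h4)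

/-- the integer congruent to `x` modulo the ramified prime -/
theorem CLR_int {ℓ : ℕ} (hℓ : ℓ.Prime) (h2 : ℓ ≠ 2) (hd : ((ℓ : ℕ) : ℤ) ∣ t ^ 2 - 4 * d)
    (x : Oz d t) : ∃ n : ℤ, ((ℓ : ℕ) : Oz d t) ∣ (x - (n : Oz d t)) ^ 2 ∧
      ((x.norm : ℤ) : ZMod ℓ) = (n : ZMod ℓ) ^ 2 := by
  have hfact : Fact ℓ.Prime := ⟨hℓ⟩
  have h20 := CLR_two hℓ h2
  have hz : ∀ n : ℤ, (n : ZMod ℓ) = 0 ↔ ((ℓ : ℕ) : ℤ) ∣ n := fun n =>
    ZMod.intCast_zmod_eq_zero_iff_dvd n ℓ
  have h40 : (4 : ZMod ℓ) ≠ 0 := by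
    have h5 : (4 : ZMod ℓ) = 2 * 2 := by norm_num
    rw [h5]
    exact mul_ne_zero h20 h20
  have hD : (t : ZMod ℓ) ^ 2 - 4 * d = 0 := by
    have := (hz _).2 hd
    push_cast at this
    exact this
  obtain ⟨n, hn⟩ := ZMod.intCast_surjective
    ((2 * (x.re : ZMod ℓ) + (t : ZMod ℓ) * (x.im : ZMod ℓ)) / 2)
  have hn2 : 2 * (n : ZMod ℓ) = 2 * x.re + t * x.im := by
    rw [hn]
    field_simp
  refine ⟨n, ?_, ?_⟩
  · obtain ⟨u, hu⟩ : ∃ u, u = x - (n : Oz d t) := ⟨_, rfl⟩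
    rw [← hu]
    have hur : u.re = x.re - n := by
      rw [hu]
      simp
    have hui : u.im = x.im := by
      rw [hu]
      simp
    have htr : ((ℓ : ℕ) : ℤ) ∣ 2 * u.re + t * u.im := by
      rw [← hz, hur, hui]
      push_cast
      linear_combination -hn2
    have hN : ((ℓ : ℕ) : ℤ) ∣ u.norm := by
      rw [← hz, CLR_norm]
      push_cast
      apply mul_left_cancel₀ h40
      have htr' := (hz _).2 htr
      push_cast at htr'
      linear_combination (2 * (u.re : ZMod ℓ) + t * u.im) * htr' - (u.im : ZMod ℓ) ^ 2 * hD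
    have hsq : ∀ a : ℤ, a = 2 * u.re + t * u.im →
        u ^ 2 = (a : Oz d t) * u - ((u.norm : ℤ) : Oz d t) := by
      intro a ha
      rw [← CLR_mul_star]
      ext
      · simp [sq, QuadraticAlgebra.re_mul, QuadraticAlgebra.re_star, QuadraticAlgebra.im_star]
        rw [ha]
        ring
      · simp [sq, QuadraticAlgebra.im_mul, QuadraticAlgebra.re_star, QuadraticAlgebra.im_star]
        rw [ha]
        ring
    rw [hsq _ rfl]
    obtain ⟨a, ha⟩ := htr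
    obtain ⟨b, hb⟩ := hN
    rw [ha, hb]
    refine ⟨(a : Oz d t) * u - (b : Oz d t), ?_⟩
    push_cast
    ring
  · apply mul_left_cancel₀ h40
    rw [CLR_norm]
    push_cast
    linear_combination (-(2 * (n : ZMod ℓ)) - 2 * x.re - t * x.im) * hn2 -
      (x.im : ZMod ℓ) ^ 2 * hD

end

theorem CLR : CLR_stmt := by
  classical
  intro d t hE ℓ hℓ hℓ2 hdisc κ _ π hπ r χ hχ hneg k
  have hCh : CharP κ ℓ := (CharP.charP_iff_prime_eq_zero hℓ).2 hπ
  have hfact : Fact ℓ.Prime := ⟨hℓ⟩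
  -- (0)
  have h1 : ∀ x y : Oz d t, ((ℓ : ℕ) : Oz d t) ∣ x - y → χ x = χ y := by
    intro x y h
    have h2 := dvd_sub_pow_of_dvd_sub h r
    have h3 : χ (x ^ ℓ ^ r) = χ (y ^ ℓ ^ r) := by
      apply hχ
      exact (pow_dvd_pow _ (Nat.le_succ r)).trans h2
    rw [map_pow, map_pow] at h3
    have h4 : (χ x - χ y) ^ ℓ ^ r = 0 := by
      rw [sub_pow_char_pow, h3, sub_self]
    exact sub_eq_zero.1 (pow_eq_zero_iff (pow_ne_zero _ hℓ.ne_zero) |>.1 h4)
  -- (1)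
  have h2 : ∀ (x : Oz d t) (n : ℤ), ((ℓ : ℕ) : Oz d t) ∣ (x - (n : Oz d t)) ^ 2 →
      χ x = χ (n : Oz d t) := by
    intro x n hn
    obtain ⟨v, hv⟩ := exists_add_pow_prime_eq hℓ (n : Oz d t) (x - (n : Oz d t))
    have h3 : ((ℓ : ℕ) : Oz d t) ∣ x ^ ℓ - (n : Oz d t) ^ ℓ := by
      have e1 : (n : Oz d t) + (x - (n : Oz d t)) = x := by ring
      rw [e1] at hv
      rw [hv]
      have e2 : (x - (n : Oz d t)) ^ ℓ = (x - (n : Oz d t)) ^ 2 * (x - (n : Oz d t)) ^ (ℓ - 2) := by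
        rw [← pow_add]
        congr 1
        have := hℓ.two_le
        omega
      have e3 : ((ℓ : ℕ) : Oz d t) ∣ (x - (n : Oz d t)) ^ ℓ := by
        rw [e2]
        exact hn.mul_right _
      have e4 : (n : Oz d t) ^ ℓ + (x - (n : Oz d t)) ^ ℓ +
          (ℓ : Oz d t) * (n : Oz d t) * (x - (n : Oz d t)) * v - (n : Oz d t) ^ ℓ =
          (x - (n : Oz d t)) ^ ℓ + (ℓ : Oz d t) * ((n : Oz d t) * (x - (n : Oz d t)) * v) := by ring
      rw [e4]
      exact dvd_add e3 (dvd_mul_right _ _)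
    have h4 := h1 _ _ h3
    rw [map_pow, map_pow] at h4
    have h5 : (χ x - χ (n : Oz d t)) ^ ℓ = 0 := by
      rw [sub_pow_char, h4, sub_self]
    exact sub_eq_zero.1 (pow_eq_zero_iff hℓ.ne_zero |>.1 h5)
  have hz : ∀ n : ℤ, (n : ZMod ℓ) = 0 ↔ ((ℓ : ℕ) : ℤ) ∣ n := fun n =>
    ZMod.intCast_zmod_eq_zero_iff_dvd n ℓ
  have h3 : ∀ a b : ℤ, (a : ZMod ℓ) = (b : ZMod ℓ) → χ (a : Oz d t) = χ (b : Oz d t) := by
    intro a b hab
    apply h1
    have h5 : ((ℓ : ℕ) : ℤ) ∣ a - b := by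
      rw [← hz]
      push_cast
      rw [hab, sub_self]
    obtain ⟨w, hw⟩ := h5
    refine ⟨(w : Oz d t), ?_⟩
    have h6 := congrArg (fun n : ℤ => (n : Oz d t)) hw
    push_cast at h6
    exact h6
  -- (2)
  obtain ⟨γ, hγ⟩ := IsCyclic.exists_monoid_generator (α := (ZMod ℓ)ˣ)
  obtain ⟨g, hg⟩ := ZMod.intCast_surjective (γ : ZMod ℓ)
  have hord : orderOf γ = ℓ - 1 := by
    rw [← ZMod.card_units ℓ, ← Nat.card_eq_fintype_card]
    refine orderOf_eq_card_of_forall_mem_zpowers fun x => ?_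
    obtain ⟨m, hm⟩ := hγ x
    exact ⟨m, by rw [← hm]; exact zpow_natCast γ m⟩
  have hγ1 : (γ : ZMod ℓ) ^ (ℓ - 1) = 1 := by
    rw [← Units.val_pow_eq_pow_val, ← hord, pow_orderOf_eq_one, Units.val_one]
  set ι := ZMod.castHom (dvd_refl ℓ) κ with hι
  have hιi : Function.Injective ι := ZMod.castHom_injective κ
  have hπι : ∀ z : Oz d t, π (z * star z) = ι ((z.norm : ℤ) : ZMod ℓ) := by
    intro z
    rw [CLR_pi, map_intCast]
  set u : κ := ι (γ : ZMod ℓ) with hu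
  have hprim : IsPrimitiveRoot u (ℓ - 1) := by
    have h3 : orderOf u = ℓ - 1 := by
      rw [hu, ← hord, ← orderOf_units]
      exact orderOf_injective (ι : ZMod ℓ →* κ) hιi (γ : ZMod ℓ)
    rw [← h3]
    exact IsPrimitiveRoot.orderOf u
  have hℓ2' : 2 ≤ ℓ := hℓ.two_le
  obtain ⟨m, hm⟩ : ∃ m, ℓ - 1 = 2 * m := by
    rcases hℓ.eq_two_or_odd with h | h
    · exact absurd h hℓ2
    · exact ⟨(ℓ - 1) / 2, by omega⟩
  have hm0 : 0 < m := by
    rcases Nat.eq_zero_or_pos m with h | h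
    · rw [h] at hm
      omega
    · exact h
  have hχ0 : χ (g : Oz d t) ^ (ℓ - 1) = 1 := by
    rw [← map_pow]
    have e1 : χ ((g ^ (ℓ - 1) : ℤ) : Oz d t) = χ ((1 : ℤ) : Oz d t) := by
      apply h3
      push_cast
      rw [hg, hγ1]
    push_cast at e1
    rw [e1, map_one]
  have hγm : (γ : ZMod ℓ) ^ m = -1 := by
    have e1 : (γ : ZMod ℓ) ^ m * (γ : ZMod ℓ) ^ m = 1 := by
      rw [← pow_add, ← two_mul, ← hm, hγ1]
    rcases mul_self_eq_one_iff.1 e1 with h | h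
    · exfalso
      have e2 : γ ^ m = 1 := by
        apply Units.ext
        rw [Units.val_pow_eq_pow_val, h, Units.val_one]
      have e3 := orderOf_dvd_of_pow_eq_one e2
      rw [hord, hm] at e3
      have := Nat.le_of_dvd hm0 e3
      omega
    · exact h
  have hχm : χ (g : Oz d t) ^ m = 1 := by
    rw [← map_pow]
    have e1 : χ ((g ^ m : ℤ) : Oz d t) = χ ((-1 : ℤ) : Oz d t) := by
      apply h3
      push_cast
      rw [hg, hγm]
    push_cast at e1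
    rw [e1, hneg]
  have hnz : NeZero (ℓ - 1) := ⟨by omega⟩
  obtain ⟨i, _, hi⟩ := hprim.eq_pow_of_pow_eq_one hχ0
  obtain ⟨i', hi'⟩ : ∃ i', i = 2 * i' := by
    rw [← hi, ← pow_mul] at hχm
    have e1 := (hprim.pow_eq_one_iff_dvd _).1 hχm
    rw [hm] at e1
    exact Nat.dvd_of_mul_dvd_mul_right hm0 e1
  -- (3)
  have h5 : ∀ x : Oz d t, ¬ ((ℓ : ℕ) : ℤ) ∣ x.norm →
      χ x = π (x * star x) ^ i' ∧ π (x * star x) ^ m = 1 := by
    intro x hx
    obtain ⟨n, hn1, hn2⟩ := CLR_int hℓ hℓ2 hdisc x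
    have hx0 : ((x.norm : ℤ) : ZMod ℓ) ≠ 0 := fun h => hx ((hz _).1 h)
    have hn0 : (n : ZMod ℓ) ≠ 0 := by
      intro h
      rw [h] at hn2
      apply hx0
      rw [hn2]
      ring
    obtain ⟨a, ha⟩ := hγ (Units.mk0 _ hn0)
    have ha' : (γ : ZMod ℓ) ^ a = (n : ZMod ℓ) := by
      have h := congrArg (fun w : (ZMod ℓ)ˣ => (w : ZMod ℓ)) ha
      simpa using h
    have e1 : χ x = χ (g : Oz d t) ^ a := by
      rw [h2 x n hn1, ← map_pow]
      have e2 : χ (n : Oz d t) = χ ((g ^ a : ℤ) : Oz d t) := by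
        apply h3
        push_cast
        rw [hg, ha']
      rw [e2]
      push_cast
      rfl
    have e3 : π (x * star x) = u ^ (2 * a) := by
      rw [hπι, hn2, ← ha', map_pow, map_pow, ← hu, ← pow_mul, mul_comm a 2]
    constructor
    · rw [e1, ← hi, e3, hi', ← pow_mul, ← pow_mul]
      congr 1
      ring
    · rw [e3, ← pow_mul]
      have e4 : 2 * a * m = (ℓ - 1) * a := by
        rw [hm]
        ring
      rw [e4, pow_mul, hprim.pow_eq_one, one_pow]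
  -- (4)
  refine ⟨(i' + k + m - 1) % m + 1, by omega, ?_, ?_⟩
  · have := Nat.mod_lt (i' + k + m - 1) hm0
    omega
  · intro x hx
    obtain ⟨e1, e2⟩ := h5 x hx
    rw [e1, ← pow_add]
    have h7 : i' + k + m = m * ((i' + k + m - 1) / m) + ((i' + k + m - 1) % m + 1) := by
      have h8 := Nat.div_add_mod (i' + k + m - 1) m
      omega
    calc π (x * star x) ^ (i' + k) = π (x * star x) ^ (i' + k + m) := by
          rw [pow_add _ (i' + k) m, e2, mul_one]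
      _ = π (x * star x) ^ (m * ((i' + k + m - 1) / m) + ((i' + k + m - 1) % m + 1)) := by
          rw [← h7]
      _ = π (x * star x) ^ ((i' + k + m - 1) % m + 1) := by
          rw [pow_add, pow_mul, e2, one_pow, one_mul]

end Pool.Agent.OE
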